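import Pool.Agent.K6.H86.MM.Mills
import Pool.Agent.K6.H86.MM.Tup

set_option autoImplicit false
set_option maxHeartbeats 4000000

/-!
# Mills-type constants for almost prime quadruplets and tuples: the set of constants has dimension one

Mills: there is a constant `t` such that `⌊t^(3^l)⌋` is prime for all `l`. Here the primes are replaced by the
almost prime quadruplets, integers `N` such that each of `N`, `N + 2`, `N + 6`, `N + 8` has at most `R` prime
factors, all of them larger than a fixed power of `N`, and more generally by almost prime tuples of any prescribed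
admissible patterns `H_l` with at most `k` elements (of any size). There is a constant `R₀` (depending on `k` only)
such that for every `lam > 1`, every `R ≥ R₀ lam / (lam - 1)` and every sequence of functions `v_l t^(n_l)` with
positive nondecreasing exponents, each function at least the `lam`-th power of the previous one (for instance
`t^(2^l)`), the set of the reals `t` for which ALL the integers `N_l = ⌊v_l t^(n_l)⌋`, `l` large, have the property
for `H_l` has Hausdorff dimension `1` in every interval. If in addition the `N_l` are prescribed modulo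
`M_l ≤ N_l^δ`, the dimension is at least `1 - 4 δ lam / (lam - 1)`.

The number `R` does not depend on the dimension: it is fixed and the dimension is `1`.

Authors: helper48 (first version of this theorem, with `R → ∞` as the dimension tends to `1`, `K6.H83.MC`) and
helper86 (this version). Proof. By the fundamental lemma of the sieve in short intervals
(`Pool.Agent.TH423.SH.fli`) every interval `[x, x + x^θ]`, `θ = (1 - 1 / lam) / 2`, contains at least
`x^(θ - 2 δ - ε)` such integers. The Cantor set construction `Pool.Agent.K6.H86.MM` (a variant of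
`Pool.Agent.K6.H83.MC`, helper83, with many, freely placed children in every block) turns the number of the good
integers in the short intervals into a lower bound of the dimension.
-/

namespace Pool.Agent.Results.MP_fc51f7_nt.MillsTuples

open Filter

/-- no prime `p` divides all the products `∏ (m + h)`, `h ∈ H` -/
def Admissible (H : Finset ℕ) : Prop := ∀ p : ℕ, p.Prime → ∃ m : ℕ, ∀ h ∈ H, ¬ p ∣ m + h

/-- for all `h ∈ H`: all prime factors of `N + h` are larger than `N ^ (1 / R)`, and if `h ≤ N` there are at most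
`R` of them, with multiplicity -/
def AlmostPrimes (R : ℕ) (H : Finset ℕ) (N : ℕ) : Prop :=
  ∀ h ∈ H, (∀ q : ℕ, q.Prime → q ∣ N + h → (N : ℝ) ^ (1 / (R : ℝ)) < (q : ℝ)) ∧
    (h ≤ N → (N + h).primeFactorsList.length ≤ R)

lemma prod_ge (z : ℝ) (hz : 0 < z) (l : List ℕ) (hl : ∀ p ∈ l, z < (p : ℝ)) : z ^ l.length ≤ (l.prod : ℝ) := by
  induction l with
  | nil => simp
  | cons a l ih =>
    have h1 := ih (fun p hp => hl p (List.mem_cons_of_mem _ hp))
    have h2 := hl a List.mem_cons_self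
    rw [List.length_cons, List.prod_cons, pow_succ, Nat.cast_mul, mul_comm]
    exact mul_le_mul h2.le h1 (by positivity) (by positivity)

/-- an integer without small prime factors has few prime factors -/
lemma length_le (R N : ℕ) (x e : ℝ) (hx : 1 < x) (hN0 : N ≠ 0) (hN : (N : ℝ) ≤ x ^ 2) (hR : 2 ≤ e * R)
    (hR0 : 0 < R) (h : ∀ p : ℕ, p.Prime → p ∣ N → x ^ e < (p : ℝ)) : N.primeFactorsList.length ≤ R := by
  have hx0 : 0 < x := by linarith
  have hRr : (0 : ℝ) < R := by exact_mod_cast hR0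
  have he : 0 < e := by
    by_contra hcon
    have : e * R ≤ 0 := mul_nonpos_of_nonpos_of_nonneg (not_lt.1 hcon) hRr.le
    linarith
  by_contra hcon
  rw [not_le] at hcon
  have hz : 0 < x ^ e := Real.rpow_pos_of_pos hx0 _
  have hz1 : 1 < x ^ e := Real.one_lt_rpow hx he
  have h1 := prod_ge (x ^ e) hz N.primeFactorsList (fun p hp =>
    h p (Nat.prime_of_mem_primeFactorsList hp) (Nat.dvd_of_mem_primeFactorsList hp))
  rw [Nat.prod_primeFactorsList hN0] at h1
  have h2 : (x ^ e) ^ R < (x ^ e) ^ N.primeFactorsList.length := pow_lt_pow_right₀ hz1 hcon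
  have h3 : x ^ 2 ≤ (x ^ e) ^ R := by
    rw [← Real.rpow_natCast (x ^ e), ← Real.rpow_mul hx0.le, ← Real.rpow_two]
    exact Real.rpow_le_rpow_of_exponent_le hx.le hR
  linarith

/-- the threshold -/
lemma pow_lt (R N : ℕ) (x e : ℝ) (hx : 1 < x) (hN : (N : ℝ) ≤ x ^ 2) (hR : 2 ≤ e * R)
    (hR0 : 0 < R) : (N : ℝ) ^ (1 / (R : ℝ)) ≤ x ^ e := by
  have hx0 : 0 < x := by linarith
  have hRr : (0 : ℝ) < R := by exact_mod_cast hR0
  calc (N : ℝ) ^ (1 / (R : ℝ)) ≤ (x ^ (2 : ℝ)) ^ (1 / (R : ℝ)) := by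
        apply Real.rpow_le_rpow (Nat.cast_nonneg _) _ (by positivity)
        rw [Real.rpow_two]; exact hN
    _ = x ^ (2 / (R : ℝ)) := by
        rw [← Real.rpow_mul hx0.le]; congr 1; ring
    _ ≤ x ^ e := by
        apply Real.rpow_le_rpow_of_exponent_le hx.le
        rw [div_le_iff₀ hRr]
        exact hR

/-- **Mills-type constants for almost prime tuples, dimension one.** -/
theorem result (k : ℕ) : ∃ R₀ : ℕ, 1 ≤ R₀ ∧ ∀ (lam δ : ℝ) (R : ℕ), 1 < lam → 0 ≤ δ →
    δ ≤ (lam - 1) / (32 * lam) → R₀ * lam / (lam - 1) ≤ R →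
    ∀ v n : ℕ → ℝ, 0 < n 0 → Monotone n → (∀ l, 0 < v l) → ∀ a b : ℝ, 0 ≤ a → a < b →
    (∀ t, a < t → t < b → 1 < v 0 * t ^ n 0) →
    (∀ l t, a < t → t < b → (v l * t ^ n l) ^ lam ≤ v (l + 1) * t ^ n (l + 1)) →
    ∀ (H : ℕ → Finset ℕ) (M c : ℕ → ℕ), (∀ l, (H l).card ≤ k) → (∀ l, Admissible (H l)) →
    (∀ l, 0 < M l) → (∀ l, ∀ h ∈ H l, (c l + h).Coprime (M l)) →
    ENNReal.ofReal (1 - 4 * δ * lam / (lam - 1)) ≤
      dimH {t : ℝ | a < t ∧ t < b ∧ ∃ l₀, ∀ l, l₀ ≤ l →
        AlmostPrimes R (H l) ⌊v l * t ^ n l⌋₊ ∧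
        ((M l : ℝ) ≤ (⌊v l * t ^ n l⌋₊ : ℝ) ^ δ → ⌊v l * t ^ n l⌋₊ ≡ c l [MOD M l])} := by
  obtain ⟨D, hD1, hcount⟩ := Pool.Agent.K6.H86.MM.Tup.count k
  refine ⟨8 * D, by omega, ?_⟩
  intro lam δ R hlam hδ0 hδ1 hR v n hn0 hn hv a b ha hab hone hgrow H M c hHk hH hM hc
  have hl0 : 0 < lam := by linarith
  have hl1 : 0 < lam - 1 := by linarith
  have hDr : (1 : ℝ) ≤ D := by exact_mod_cast hD1
  obtain ⟨E, hE⟩ : ∃ E : ℝ, E = 1 - 1 / lam := ⟨_, rfl⟩
  have hE1 : E = (lam - 1) / lam := by rw [hE]; field_simp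
  have hE0 : 0 < E := by rw [hE1]; positivity
  have hElt : E < 1 := by
    have : 0 < 1 / lam := by positivity
    linarith
  have hδE : δ ≤ E / 32 := by
    rw [hE1]
    calc δ ≤ (lam - 1) / (32 * lam) := hδ1
      _ = (lam - 1) / lam / 32 := by field_simp
  have hS : 1 - 4 * δ * lam / (lam - 1) = 1 - 4 * δ / E := by rw [hE1]; field_simp
  rw [hS]
  have hRE : 8 * D / E ≤ R := by
    calc 8 * D / E = (8 * D : ℕ) * lam / (lam - 1) := by rw [hE1]; push_cast; field_simp
      _ ≤ R := hR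
  have hRr : (0 : ℝ) < R := lt_of_lt_of_le (by positivity) hRE
  have hR0 : 0 < R := by exact_mod_cast hRr
  -- it suffices to treat `s < 1 - 4 δ / E`
  refine le_of_forall_lt fun w hw => ?_
  have hwtop : w ≠ ⊤ := (hw.trans ENNReal.ofReal_lt_top).ne
  obtain ⟨s, hs1, hs2⟩ := exists_between ((ENNReal.lt_ofReal_iff_toReal_lt hwtop).1 hw)
  refine lt_of_lt_of_le ((ENNReal.lt_ofReal_iff_toReal_lt hwtop).2 hs1) ?_
  have h4δ : 0 ≤ 4 * δ / E := by positivity
  have hs : s < 1 := by linarith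
  obtain ⟨δ', hδ'⟩ : ∃ δ' : ℝ, δ' = min (E / 16) ((δ + (1 - s) * E / 4) / 2) := ⟨_, rfl⟩
  have hsE : δ < (1 - s) * E / 4 := by
    have : 4 * δ / E < 1 - s := by linarith
    rw [div_lt_iff₀ hE0] at this
    linarith
  have d1 : δ < δ' := by
    rw [hδ']
    apply lt_min <;> linarith
  have d2 : δ' ≤ E / 16 := by rw [hδ']; exact min_le_left _ _
  have d3 : δ' < (1 - s) * E / 4 := by
    rw [hδ']
    exact (min_le_right _ _).trans_lt (by linarith)
  have d0 : 0 < δ' := by linarith
  obtain ⟨X₀, hX₀⟩ := hcount (E / 2) δ' (by positivity) (by linarith) d0 (by linarith)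
  -- the thresholds
  have t1 : ∀ᶠ x : ℝ in atTop, (2 : ℝ) ^ δ ≤ x ^ (δ' - δ) :=
    (tendsto_rpow_atTop (by linarith)).eventually_ge_atTop _
  obtain ⟨X₁, hX₁⟩ := eventually_atTop.1 ((t1.and (eventually_ge_atTop (8 : ℝ))).and
    (eventually_ge_atTop X₀))
  exact Pool.Agent.K6.H86.MM.mills_count hlam ha hab hn0 hn hv hone hgrow s (E / 2) (E / 2 - 2 * δ') hs
    (by positivity) (by linarith) (by rw [← hE]; linarith) (by
      rw [← hE]
      rcases le_or_gt s 0 with h0 | h0
      · have : (E / 2 + 2 * δ') * s ≤ 0 := mul_nonpos_of_nonneg_of_nonpos (by linarith) h0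
        nlinarith
      · have h1 : s * E < E - 4 * δ' := by linarith
        have h2 : (E / 2 + 2 * δ') * (s * E) < (E / 2 + 2 * δ') * (E - 4 * δ') :=
          mul_lt_mul_of_pos_left h1 (by linarith)
        have h3 : (E / 2 + 2 * δ') * (E - 4 * δ') ≤ E / 2 * E := by nlinarith
        have h4 : (E / 2 + 2 * δ') * s < E / 2 := by
          have h5 : ((E / 2 + 2 * δ') * s) * E < E / 2 * E := by linarith
          exact lt_of_mul_lt_mul_right h5 hE0.le
        linarith)
    (fun l N => AlmostPrimes R (H l) N ∧ ((M l : ℝ) ≤ (N : ℝ) ^ δ → N ≡ c l [MOD M l])) X₁ (fun l x hx => by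
      obtain ⟨⟨e1, e2⟩, e3⟩ := hX₁ x hx
      have hx0 : 0 < x := by linarith
      have hx1 : 1 < x := by linarith
      have hxθ : x ^ (E / 2) ≤ x := by
        calc x ^ (E / 2) ≤ x ^ (1 : ℝ) := Real.rpow_le_rpow_of_exponent_le hx1.le (by linarith)
          _ = x := Real.rpow_one x
      have hR2 : 2 ≤ E / 2 / (2 * D) * R := by
        rw [div_le_iff₀ hE0] at hRE
        rw [div_div, div_mul_eq_mul_div, le_div_iff₀ (by positivity)]
        linarith
      have hfin : {N : ℕ | x ≤ N ∧ (N : ℝ) ≤ x + x ^ (E / 2) ∧ (AlmostPrimes R (H l) N ∧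
          ((M l : ℝ) ≤ (N : ℝ) ^ δ → N ≡ c l [MOD M l]))}.Finite := by
        apply (Set.finite_Iic ⌊x + x ^ (E / 2)⌋₊).subset
        rintro N ⟨-, h2, -⟩
        exact Nat.le_floor h2
      have hquad : ∀ (m d N : ℕ), N ∈ Pool.Agent.K6.H86.MM.Tup.GoodSet (H l) x (E / 2) (x ^ (E / 2 / (2 * D))) m d →
          AlmostPrimes R (H l) N := by
        rintro m d N ⟨h1, h2, -, h4⟩ h hh
        have hNpos : (0 : ℝ) < N := by linarith
        have hNpos' : 0 < N := by exact_mod_cast hNpos
        constructor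
        · intro q hq hqN
          refine lt_of_le_of_lt ?_ (h4 h hh q hq hqN)
          exact pow_lt R N x _ hx1 (by nlinarith) hR2 hR0
        · intro hhN
          have hhN' : (h : ℝ) ≤ N := by exact_mod_cast hhN
          exact length_le R (N + h) x (E / 2 / (2 * D)) hx1 (by omega) (by push_cast; nlinarith) hR2 hR0 (h4 h hh)
      by_cases hMk : (M l : ℝ) ≤ x ^ δ'
      · refine (hX₀ x e3 (H l) (M l) (c l) (hHk l) (hH l) (hM l) hMk (hc l)).trans ?_
        have hsub : Pool.Agent.K6.H86.MM.Tup.GoodSet (H l) x (E / 2) (x ^ (E / 2 / (2 * D))) (M l) (c l) ⊆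
            {N : ℕ | x ≤ N ∧ (N : ℝ) ≤ x + x ^ (E / 2) ∧ (AlmostPrimes R (H l) N ∧
              ((M l : ℝ) ≤ (N : ℝ) ^ δ → N ≡ c l [MOD M l]))} :=
          fun N hN => ⟨hN.1, hN.2.1, hquad _ _ N hN, fun _ => hN.2.2.1⟩
        exact_mod_cast Set.ncard_le_ncard hsub hfin
      · refine (hX₀ x e3 (H l) 1 0 (hHk l) (hH l) one_pos (by
          rw [Nat.cast_one]
          exact Real.one_le_rpow hx1.le d0.le) (fun h _ => Nat.coprime_one_right _)).trans ?_
        have hsub : Pool.Agent.K6.H86.MM.Tup.GoodSet (H l) x (E / 2) (x ^ (E / 2 / (2 * D))) 1 0 ⊆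
            {N : ℕ | x ≤ N ∧ (N : ℝ) ≤ x + x ^ (E / 2) ∧ (AlmostPrimes R (H l) N ∧
              ((M l : ℝ) ≤ (N : ℝ) ^ δ → N ≡ c l [MOD M l]))} := by
          intro N hN
          refine ⟨hN.1, hN.2.1, hquad _ _ N hN, fun h => absurd (h.trans ?_) hMk⟩
          have h1 : (N : ℝ) ≤ 2 * x := by linarith [hN.2.1]
          calc (N : ℝ) ^ δ ≤ (2 * x) ^ δ := Real.rpow_le_rpow (Nat.cast_nonneg _) h1 hδ0
            _ = 2 ^ δ * x ^ δ := Real.mul_rpow (by norm_num) hx0.le
            _ ≤ x ^ (δ' - δ) * x ^ δ := mul_le_mul_of_nonneg_right e1 (by positivity)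
            _ = x ^ δ' := by rw [← Real.rpow_add hx0]; ring_nf
        exact_mod_cast Set.ncard_le_ncard hsub hfin)

end Pool.Agent.Results.MP_fc51f7_nt.MillsTuples
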