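import Pool.Agent.W182.PW.Tup
import Pool.Agent.K6.H38.PQ.A

set_option autoImplicit false

/-!
# Five consecutive odd integers containing a prime and three almost primes, in narrow progressions

There is an `r` such that for all large `X` there are `≫ X / log⁴ X` integers `m ≤ X` with `m` prime and
`m + 2`, `m + 6`, `m + 8` products of at most `r` primes, all these primes being larger than
`X ^ (1 / r)`. For every `k` and `ε` there is a `B` such that, with at most `ε X / log⁴ X` exceptions,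
each of these integers `m` is a term of a `k`-term arithmetic progression of such integers with a
difference at most `(log X) ^ B`. The same is true in every interval `(A, A + X]` and for every
subset of the integers `m` in it for which `m (m + 2) (m + 6) (m + 8)` has no prime factor at most
`X ^ (1 / r)` (for any `r`) - so for the prime quadruplets in such an interval, if there are any.
-/

namespace Pool.Agent.Results.MP_fc51f7_nt.NarrowProgressions

open Finset Filter

/-- `N` has at most `r` prime factors (with multiplicity), all of them larger than `z`. -/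
def AlmostPrime (r : ℕ) (z : ℝ) (N : ℕ) : Prop :=
  N.primeFactorsList.length ≤ r ∧ ∀ q : ℕ, q.Prime → q ∣ N → z < (q : ℝ)

/-- `m` is a prime larger than `z`, and `m + 2`, `m + 6`, `m + 8` have at most `r` prime factors each,
all of them larger than `z`. -/
def AlmostGood (r : ℕ) (z : ℝ) (m : ℕ) : Prop :=
  m.Prime ∧ z < (m : ℝ) ∧ AlmostPrime r z (m + 2) ∧ AlmostPrime r z (m + 6) ∧ AlmostPrime r z (m + 8)

/-- `m`, `m + 2`, `m + 6`, `m + 8` have no prime factor at most `z`. -/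
def Sifted (z : ℝ) (m : ℕ) : Prop :=
  ∀ q : ℕ, q.Prime → (q : ℝ) ≤ z → ∀ h ∈ ({0, 2, 6, 8} : Finset ℕ), ¬ q ∣ m + h

/-- `n` is a term of an arithmetic progression of `k` terms, all of them in `T`, with a difference `d`,
`1 ≤ d ≤ D`. -/
def InProgression (T : Finset ℕ) (k : ℕ) (D : ℝ) (n : ℕ) : Prop :=
  ∃ a d : ℕ, 1 ≤ d ∧ (d : ℝ) ≤ D ∧ (∀ i < k, a + i * d ∈ T) ∧ ∃ i < k, n = a + i * d

open Classical in
lemma exist : ∃ (r : ℕ) (c : ℝ), 0 < r ∧ 0 < c ∧ ∀ᶠ X : ℕ in atTop,
    c * X / Real.log X ^ 4 ≤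
      (((Finset.Icc 1 X).filter (AlmostGood r ((X : ℝ) ^ (1 / (r : ℝ))))).card : ℝ) := by
  have h := Pool.Agent.W182.PW.main_tuple {2, 6, 8} (by decide) (Pool.Agent.W182.PW.adm_of _ 12 (by decide) (by norm_num) (by
      intro p hp hpp
      interval_cases p
      · exact absurd hpp Nat.not_prime_zero
      · exact absurd hpp Nat.not_prime_one
      · exact ⟨1, by decide⟩
      · exact ⟨2, by decide⟩
      · exact absurd hpp (by norm_num)
      · exact ⟨1, by decide⟩
      · exact absurd hpp (by norm_num)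
      · exact ⟨2, by decide⟩
      · exact absurd hpp (by norm_num)
      · exact absurd hpp (by norm_num)
      · exact absurd hpp (by norm_num)
      · exact ⟨2, by decide⟩))
  obtain ⟨r, c₁, c₂, K, κ, hc₁, hc₂, hK, hκ, hx⟩ := h
  have hcard : ({2, 6, 8} : Finset ℕ).card + 1 = 4 := by decide
  rw [hcard] at hx
  -- replace `r` by `s = 2 r + 2`
  refine ⟨2 * r + 2, c₁ * κ / 4, by omega, by positivity, ?_⟩
  have e1 : ∀ᶠ X : ℕ in atTop, K * Real.log X ^ 4 ≤ κ * X / 4 := by
    have h1 : Tendsto (fun X : ℕ => Real.log X ^ 4 / (X : ℝ)) atTop (nhds 0) :=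
      (((Real.isLittleO_pow_log_id_atTop (n := 4)).tendsto_div_nhds_zero).comp tendsto_natCast_atTop_atTop)
    have h2 : ∀ᶠ X : ℕ in atTop, Real.log X ^ 4 / (X : ℝ) < κ / (4 * K) :=
      h1.eventually_lt_const (by positivity)
    filter_upwards [h2, eventually_ge_atTop 1] with X h4 h6
    have h7 : (0 : ℝ) < X := by exact_mod_cast h6
    rw [div_lt_iff₀ h7] at h4
    have h8 : K * Real.log X ^ 4 ≤ K * (κ / (4 * K) * X) := mul_le_mul_of_nonneg_left h4.le hK.le
    have h9 : K * (κ / (4 * K) * X) = κ * X / 4 := by field_simp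
    rw [h9] at h8
    exact h8
  have e0 : ∀ᶠ X : ℕ in atTop, 4 / κ + 2 ≤ (X : ℝ) ^ (1 / 2 : ℝ) :=
    ((tendsto_rpow_atTop (by norm_num)).comp tendsto_natCast_atTop_atTop).eventually_ge_atTop _
  filter_upwards [hx, e1, e0, eventually_ge_atTop 3] with X hX h1 h0 hX3
  have hXr : (3 : ℝ) ≤ X := by exact_mod_cast hX3
  set Y : ℝ := (X : ℝ) ^ (1 / 2 : ℝ) with hY
  have hYY : Y * Y = X := by
    rw [hY, ← Real.rpow_add (by linarith)]
    norm_num
  have hκ4 : 0 < 4 / κ := by positivity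
  have hY2 : 2 < Y := by linarith
  have hYκ : 4 < κ * Y := by
    have : 4 / κ < Y := by linarith
    rw [div_lt_iff₀ hκ] at this
    linarith
  have hYX : 4 * Y < κ * X := by rw [← hYY]; nlinarith
  -- a regular `n > κ X / 2`
  obtain ⟨n, hn, hnκ⟩ : ∃ n ∈ (Finset.Icc 1 X).filter (fun n => Pool.Agent.W182.PW.RegS
      (Pool.Agent.W182.PW.TupS {2, 6, 8}) 4 r c₁ c₂ K n), κ * X / 2 < (n : ℝ) := by
    by_contra hcon
    push Not at hcon
    have h2 : (Finset.Icc 1 X).filter (fun n => Pool.Agent.W182.PW.RegS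
      (Pool.Agent.W182.PW.TupS {2, 6, 8}) 4 r c₁ c₂ K n) ⊆ Finset.Icc 1 ⌊κ * X / 2⌋₊ := by
      intro n hn
      rw [Finset.mem_Icc]
      exact ⟨(Finset.mem_Icc.1 (Finset.mem_filter.1 hn).1).1, Nat.le_floor (hcon n hn)⟩
    have h3 := Finset.card_le_card h2
    rw [Nat.card_Icc, Nat.add_sub_cancel] at h3
    have h4 : (⌊κ * X / 2⌋₊ : ℝ) ≤ κ * X / 2 := Nat.floor_le (by positivity)
    have h5 : (((Finset.Icc 1 X).filter (fun n => Pool.Agent.W182.PW.RegS
      (Pool.Agent.W182.PW.TupS {2, 6, 8}) 4 r c₁ c₂ K n)).card : ℝ) ≤ (⌊κ * X / 2⌋₊ : ℝ) := by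
      exact_mod_cast h3
    have h6 : 0 < κ * X := by positivity
    linarith
  obtain ⟨hn1, hreg⟩ := Finset.mem_filter.1 hn
  have hnX : n ≤ X := (Finset.mem_Icc.1 hn1).2
  have hnXr : (n : ℝ) ≤ X := by exact_mod_cast hnX
  have hn1r : (1 : ℝ) < n := by nlinarith
  have hln : 0 < Real.log n := Real.log_pos hn1r
  have hll : Real.log n ≤ Real.log X := Real.log_le_log (by linarith) hnXr
  have hhalf : ((n / 2 : ℕ) : ℝ) ≤ n / 2 := Nat.cast_div_le
  have hhalf2 : (n : ℝ) / 2 < ((n / 2 : ℕ) : ℝ) + 1 := by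
    have : n < 2 * (n / 2 + 1) := by omega
    have h : (n : ℝ) < 2 * (((n / 2 : ℕ) : ℝ) + 1) := by exact_mod_cast this
    linarith
  have hpow : Real.log n ^ 4 ≤ Real.log X ^ 4 := pow_le_pow_left₀ hln.le hll 4
  obtain ⟨hcnt, -⟩ := hreg (n / 2) n (Nat.div_le_self _ _) le_rfl
    (by
      have := mul_le_mul_of_nonneg_left hpow hK.le
      linarith)
    (by
      have : (0 : ℝ) ≤ ((n / 2 : ℕ) : ℝ) := Nat.cast_nonneg _
      linarith)
  have hpos : 0 < c₁ * ((n : ℝ) - ((n / 2 : ℕ) : ℝ)) / Real.log n ^ 4 := by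
    apply div_pos _ (by positivity)
    apply mul_pos hc₁
    linarith
  have hsub : (Finset.Ioc (n / 2) n).filter (fun m => Pool.Agent.W182.PW.TupS {2, 6, 8} r ((n : ℝ) ^ (1 / (r : ℝ))) m) ⊆
      (Finset.Icc 1 X).filter (AlmostGood (2 * r + 2) ((X : ℝ) ^ (1 / ((2 * r + 2 : ℕ) : ℝ)))) := by
    intro m hm
    rw [Finset.mem_filter, Finset.mem_Ioc] at hm
    obtain ⟨⟨hm1, hm2⟩, hmp, hmh⟩ := hm
    have hm1r : ((n / 2 : ℕ) : ℝ) + 1 ≤ m := by exact_mod_cast hm1
    have hr0 : r ≠ 0 := by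
      rintro rfl
      have h5 := (hmh 2 (by decide)).1
      have h6 : (m + 2).primeFactorsList = [] := List.length_eq_zero_iff.1 (by omega)
      rw [Nat.primeFactorsList_eq_nil] at h6
      omega
    have hrp : (0 : ℝ) < r := by exact_mod_cast Nat.pos_of_ne_zero hr0
    have hs : (X : ℝ) ^ (1 / ((2 * r + 2 : ℕ) : ℝ)) ≤ Y := by
      rw [hY]
      apply Real.rpow_le_rpow_of_exponent_le (by linarith)
      apply one_div_le_one_div_of_le (by norm_num)
      push_cast
      linarith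
    have hs2 : (X : ℝ) ^ (1 / ((2 * r + 2 : ℕ) : ℝ)) ≤ (n : ℝ) ^ (1 / (r : ℝ)) := by
      calc (X : ℝ) ^ (1 / ((2 * r + 2 : ℕ) : ℝ)) ≤ (X : ℝ) ^ ((1 / 2 : ℝ) * (1 / (r : ℝ))) := by
            apply Real.rpow_le_rpow_of_exponent_le (by linarith)
            have e : (1 / 2 : ℝ) * (1 / (r : ℝ)) = 1 / (2 * r) := by field_simp
            rw [e]
            apply one_div_le_one_div_of_le (by positivity)
            push_cast
            linarith
        _ = Y ^ (1 / (r : ℝ)) := by rw [Real.rpow_mul (by linarith)]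
        _ ≤ (n : ℝ) ^ (1 / (r : ℝ)) := by
            apply Real.rpow_le_rpow (by linarith) _ (by positivity)
            linarith
    have hap : ∀ h ∈ ({2, 6, 8} : Finset ℕ), AlmostPrime (2 * r + 2) ((X : ℝ) ^ (1 / ((2 * r + 2 : ℕ) : ℝ))) (m + h) := by
      intro h hh
      obtain ⟨h1, h2⟩ := hmh h hh
      exact ⟨h1.trans (by omega), fun q hq hqd => lt_of_le_of_lt hs2 (h2 q hq hqd)⟩
    rw [Finset.mem_filter, Finset.mem_Icc]
    refine ⟨⟨by omega, hm2.trans hnX⟩, hmp, ?_, hap 2 (by decide), hap 6 (by decide), hap 8 (by decide)⟩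
    linarith
  have hle := Finset.card_le_card hsub
  have hle' : (((Finset.Ioc (n / 2) n).filter (fun m => Pool.Agent.W182.PW.TupS {2, 6, 8} r ((n : ℝ) ^ (1 / (r : ℝ))) m)).card : ℝ) ≤
      (((Finset.Icc 1 X).filter (AlmostGood (2 * r + 2) ((X : ℝ) ^ (1 / ((2 * r + 2 : ℕ) : ℝ))))).card : ℝ) := by
    exact_mod_cast hle
  refine le_trans ?_ (hcnt.trans hle')
  calc c₁ * κ / 4 * X / Real.log X ^ 4 = (c₁ * (κ * X / 4)) / Real.log X ^ 4 := by ring
    _ ≤ (c₁ * (κ * X / 4)) / Real.log n ^ 4 := by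
        apply div_le_div_of_nonneg_left _ (by positivity) hpow
        positivity
    _ ≤ c₁ * ((n : ℝ) - ((n / 2 : ℕ) : ℝ)) / Real.log n ^ 4 := by
        apply div_le_div_of_nonneg_right _ (by positivity)
        apply mul_le_mul_of_nonneg_left _ hc₁.le
        linarith

open Classical in
/-- **Five consecutive odd integers, almost primes, in narrow arithmetic progressions.** -/
theorem result :
    (∃ (r : ℕ) (c : ℝ), 0 < r ∧ 0 < c ∧ ∀ᶠ X : ℕ in atTop,
      c * X / Real.log X ^ 4 ≤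
        (((Finset.Icc 1 X).filter (AlmostGood r ((X : ℝ) ^ (1 / (r : ℝ))))).card : ℝ)) ∧
    ∀ (k r : ℕ) (ε : ℝ), 0 < k → 0 < r → 0 < ε → ∃ B : ℕ, ∀ᶠ X : ℕ in atTop,
      ∀ (A : ℕ) (T : Finset ℕ), T ⊆ Finset.Ioc A (A + X) →
        (∀ m ∈ T, Sifted ((X : ℝ) ^ (1 / (r : ℝ))) m) →
        ((T.filter (fun n => ¬ InProgression T k (Real.log X ^ B) n)).card : ℝ) ≤
          ε * X / Real.log X ^ 4 := by
  refine ⟨exist, ?_⟩
  intro k r ε hk hr hε
  have hr0 : (0 : ℝ) < r := by exact_mod_cast hr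
  have hr1 : (1 : ℝ) ≤ r := by exact_mod_cast hr
  obtain ⟨B, X₀, h⟩ := Pool.Agent.K6.H38.PQ.main k hk (1 / (r : ℝ)) ε (by positivity)
    (by rw [div_le_one hr0]; exact hr1) hε
  refine ⟨B, ?_⟩
  filter_upwards [eventually_ge_atTop X₀] with X hX A T hT hS
  exact h X hX A T hT hS

end Pool.Agent.Results.MP_fc51f7_nt.NarrowProgressions
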