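import Pool.Agent.N646.RG.All
import Pool.Agent.K6.H92.PS.Par

/-!
# Prime quadruples near the parallelograms over any two sets of sixteen integers, in the right number

The shifts `0, 2, 6, 8` of the prime quadruples form a parallelogram `0, a, b, a + b` with `a = 2`, `b = 6`.

There is `δ > 0` such that for every `λ > 0` there is `κ > 0` with: for all large `N`, every `T` with
`λ log N ≤ T ≤ N / 10` and ALL integers `a_0, ..., a_15` and `b_0, ..., b_15` of absolute value at most `N / 20` there
are `i < i'` and `j < j'` such that for `a = a_i' - a_i` and `b = b_j' - b_j` at least `δ T ^ 3` of the vectors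
`(h_1, h_2, h_3)` with `|h_1 - a|, |h_2 - b|, |h_3 - (a + b)| ≤ T` (with different nonzero coordinates) have at least
`κ N / (log N) ^ 4` primes `p ≤ N` for which `p + h_1, p + h_2, p + h_3` are prime: up to the constant, the number
predicted by Hardy and Littlewood.

For instance, for `a_i = 2 i A` and `b_j = 6 j B` we get prime quadruples with differences near
`2 s A, 6 t B, 2 s A + 6 t B` with `1 ≤ s, t ≤ 15`, for all integers `A, B` up to a multiple of `N`, up to an
error which may be an arbitrarily small multiple of the average distance of consecutive primes.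

Proof. The almost clique theorem of project RQ (`Pool.Agent.N646.RO.S_WC`) and the hitting theorem of project RG with
the right order of magnitude (`Pool.Agent.N646.RG.S_HITM2`), both starting files, are applied to `256` forms
`x + a_i + b_j` (shifted and rounded to multiples of the modulus): at least `72 > (5 / 18) 256` of the classes of shifts
are dense, and almost all the choices of one shift in each of four dense classes are good. A subset of the
`16 × 16` grid with at least `72` elements contains the four vertices of a rectangle.
-/

set_option autoImplicit false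

namespace Pool.Agent.Results.MP_fc51f7_nt.NearParallelograms

open Finset Filter

/-- the number of the primes `p ≤ N` for which `p + h 0`, `p + h 1`, `p + h 2` are (positive) primes -/
def primeQuadruples (h : Fin 3 → ℤ) (N : ℕ) : ℕ :=
  ((range (N + 1)).filter (fun p : ℕ => p.Prime ∧ ∀ i, ((p : ℤ) + h i).toNat.Prime)).card

open Classical in
/-- the vectors `h` with `|h i - a i| ≤ T`, with different nonzero coordinates, for which there are at least
`κ N / (log N) ^ 4` primes `p ≤ N` with all `p + h i` prime -/
noncomputable def goodVectors (κ : ℝ) (N T : ℕ) (a : Fin 3 → ℤ) : Finset (Fin 3 → ℤ) :=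
  (Fintype.piFinset (fun i : Fin 3 => Icc (a i - T) (a i + T))).filter
    (fun h : Fin 3 → ℤ => Function.Injective h ∧ (∀ i, h i ≠ 0) ∧
      κ * (N / (Real.log N) ^ 4) ≤ (primeQuadruples h N : ℝ))

theorem result : ∃ δ : ℝ, 0 < δ ∧ ∀ lam : ℝ, 0 < lam → ∃ κ : ℝ, 0 < κ ∧ ∀ᶠ N : ℕ in atTop,
    ∀ T : ℕ, lam * Real.log N ≤ T → 10 * T ≤ N →
      ∀ a b : Fin 16 → ℤ, (∀ i, 20 * |a i| ≤ N) → (∀ j, 20 * |b j| ≤ N) →
      ∃ i i' j j' : Fin 16, i < i' ∧ j < j' ∧ δ * (T : ℝ) ^ 3 ≤
        ((goodVectors κ N T ![a i' - a i, b j' - b j, (a i' - a i) + (b j' - b j)]).card : ℝ) :=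
  Pool.Agent.K6.H92.PS.parallelograms
    (Pool.Agent.N591.RQ.main Pool.Agent.N595.RQ.main) (Pool.Agent.N646.RG.sHITM2 3)

end Pool.Agent.Results.MP_fc51f7_nt.NearParallelograms
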