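import Pool.Agent.K6.H86.WT.Main

/-!
# Primes followed by almost primes in Wright's towers `2 ^ 2 ^ ... ^ t`

Wright proved in 1951 that there is a real `t` such that the integer parts of `2 ^ t`, `2 ^ 2 ^ t`, `2 ^ 2 ^ 2 ^ t`, ...
are all primes. Here: for some `r` the set of the `t` for which ALL terms `N` of the sequence of the integer parts of
`t`, `2 ^ t`, `2 ^ 2 ^ t`, ... are primes with `N + 2`, `N + 6`, `N + 8` almost primes (at most `r` prime factors, all
larger than `N ^ (1 / r)`) has Hausdorff dimension `1`, on every half-line; and in every interval the set of the `t` for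
which all large terms are such primes has dimension `1`. The same holds for all towers
`G_0(t) = t`, `G_{l+1}(t) = exp (c_l G_l(t))` with `0 < c₁ ≤ c_l ≤ c₂`, and for all systems of at most `k` shifts, which
may depend on `l`, with an `r` depending only on `k` and `c₁`.

Proof. An interval `[p, q]` of level `l` is one that `G_l` maps onto `[N, N + 1 / 2]`, where `N` is a good prime. As
`G_{l+1}(q) = exp (c_l / 2) G_{l+1}(p)`, by the fundamental lemma of the sieve and a mean value theorem for primes in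
arithmetic progressions (starting files) there are many good primes between `G_{l+1}(p)` and `G_{l+1}(q)`, and by the
upper bound sieve they are well distributed on all scales. The derivative of `G_{l+1}` is constant on `[p, q]` up to a
bounded factor. So a Cantor set lemma, in which the children may be placed freely, gives dimension `1`.
-/

set_option autoImplicit false

namespace Pool.Agent.Results.MP_fc51f7_nt.WrightTowers

open Filter

/-- the tower `G_0(t) = t`, `G_{l+1}(t) = exp (c_l G_l(t))` -/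
noncomputable def tower (c : ℕ → ℝ) : ℕ → ℝ → ℝ
  | 0, t => t
  | l + 1, t => Real.exp (c l * tower c l t)

/-- Wright's tower: `t`, `2 ^ t`, `2 ^ 2 ^ t`, ... -/
noncomputable def wright : ℕ → ℝ → ℝ
  | 0, t => t
  | l + 1, t => (2 : ℝ) ^ wright l t

/-- for every prime `p` some `m` has neither `m` nor any `m + h`, `h ∈ H`, divisible by `p` -/
def Admissible (H : Finset ℕ) : Prop := ∀ p : ℕ, p.Prime → ∃ m : ℕ, ¬ p ∣ m ∧ ∀ h ∈ H, ¬ p ∣ m + h

/-- `N` is prime, and for all `h ∈ H`: all prime factors of `N + h` are larger than `N ^ (1 / r)`, and if `h ≤ N`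
there are at most `r` of them, with multiplicity -/
def PrimeAlmost (r : ℕ) (H : Finset ℕ) (N : ℕ) : Prop :=
  N.Prime ∧ ∀ h ∈ H, (∀ q : ℕ, q.Prime → q ∣ N + h → (N : ℝ) ^ (1 / (r : ℝ)) < (q : ℝ)) ∧
    (h ≤ N → (N + h).primeFactorsList.length ≤ r)

lemma tower_eq (c : ℕ → ℝ) (l : ℕ) (t : ℝ) : tower c l t = Pool.Agent.K6.H86.WT.tower c l t := by
  induction l with
  | zero => rfl
  | succ l ih =>
    show Real.exp (c l * tower c l t) = Real.exp (c l * Pool.Agent.K6.H86.WT.tower c l t)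
    rw [ih]

lemma wright_eq (l : ℕ) (t : ℝ) : wright l t = tower (fun _ => Real.log 2) l t := by
  induction l with
  | zero => rfl
  | succ l ih =>
    show (2 : ℝ) ^ wright l t = Real.exp (Real.log 2 * tower (fun _ => Real.log 2) l t)
    rw [ih, Real.rpow_def_of_pos (by norm_num)]

lemma general (k : ℕ) (c₁ : ℝ) (hc₁ : 0 < c₁) : ∃ r : ℕ, ∀ (c₂ : ℝ) (c : ℕ → ℝ),
    (∀ l, c₁ ≤ c l ∧ c l ≤ c₂) → ∀ H : ℕ → Finset ℕ, (∀ l, (H l).card ≤ k ∧ Admissible (H l)) →
    (∀ a b : ℝ, a < b → (1 < c₁ * Real.exp 1 ∨ ∃ t, t < b ∧ Tendsto (fun l => tower c l t) atTop atTop) →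
      dimH {t : ℝ | a < t ∧ t < b ∧ ∀ᶠ l in atTop, PrimeAlmost r (H l) ⌊tower c l t⌋₊} = 1) ∧
    ∀ a : ℝ, dimH {t : ℝ | a < t ∧ ∀ l, PrimeAlmost r (H l) ⌊tower c l t⌋₊} = 1 := by
  obtain ⟨r, -, hr⟩ := Pool.Agent.K6.H86.WT.base k c₁ hc₁
  refine ⟨r, fun c₂ c hc H hH => ⟨fun a b hab hor => ?_, fun a => ?_⟩⟩
  · have h1 := Pool.Agent.K6.H86.WT.main k c₁ hc₁ r hr c₂ c hc H hH a b hab (by
      rcases hor with h2 | ⟨t, h2, h3⟩
      · exact ⟨b - 1, by linarith, Pool.Agent.K6.H86.WT.tower_tendsto c₁ h2 c (fun l => (hc l).1) _⟩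
      · refine ⟨t, h2, ?_⟩
        have e : (fun l => tower c l t) = fun l => Pool.Agent.K6.H86.WT.tower c l t := funext fun l => tower_eq c l t
        rw [e] at h3
        exact h3)
    have e : {t : ℝ | a < t ∧ t < b ∧ ∀ᶠ l in atTop, PrimeAlmost r (H l) ⌊tower c l t⌋₊} =
        {t : ℝ | a < t ∧ t < b ∧ ∃ l₀, ∀ l, l₀ ≤ l →
          Pool.Agent.K6.H86.WT.PrimeAlmost r (H l) ⌊Pool.Agent.K6.H86.WT.tower c l t⌋₊} := by
      ext t
      simp only [Set.mem_ofPred_eq, eventually_atTop, tower_eq]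
      exact Iff.rfl
    rw [e]
    exact h1
  · have h1 := Pool.Agent.K6.H86.WT.allLevels k c₁ hc₁ r hr c₂ c hc H hH a
    have e : {t : ℝ | a < t ∧ ∀ l, PrimeAlmost r (H l) ⌊tower c l t⌋₊} =
        {t : ℝ | a < t ∧ ∀ l, Pool.Agent.K6.H86.WT.PrimeAlmost r (H l) ⌊Pool.Agent.K6.H86.WT.tower c l t⌋₊} := by
      ext t
      simp only [Set.mem_ofPred_eq, tower_eq]
      exact Iff.rfl
    rw [e]
    exact h1

lemma adm_quad : Admissible {2, 6, 8} := by
  intro p hp
  rcases le_or_gt 11 p with h | h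
  · refine ⟨1, ?_, ?_⟩
    · intro hd
      exact absurd (Nat.le_of_dvd one_pos hd) (by omega)
    · intro h' hh' hd
      have h1 : h' ≤ 8 := by
        simp only [Finset.mem_insert, Finset.mem_singleton] at hh'
        omega
      exact absurd (Nat.le_of_dvd (by omega) hd) (by omega)
  · interval_cases p
    · exact absurd hp Nat.not_prime_zero
    · exact absurd hp Nat.not_prime_one
    · exact ⟨1, by decide, by decide⟩
    · exact ⟨2, by decide, by decide⟩
    · exact absurd hp (by norm_num)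
    · exact ⟨1, by decide, by decide⟩
    · exact absurd hp (by norm_num)
    · exact ⟨2, by decide, by decide⟩
    · exact absurd hp (by norm_num)
    · exact absurd hp (by norm_num)
    · exact absurd hp (by norm_num)

/-- **Primes followed by almost primes in towers of exponentials.** -/
theorem result :
    (∀ (k : ℕ) (c₁ : ℝ), 0 < c₁ → ∃ r : ℕ, ∀ (c₂ : ℝ) (c : ℕ → ℝ), (∀ l, c₁ ≤ c l ∧ c l ≤ c₂) →
      ∀ H : ℕ → Finset ℕ, (∀ l, (H l).card ≤ k ∧ Admissible (H l)) →
        (∀ a b : ℝ, a < b → (1 < c₁ * Real.exp 1 ∨ ∃ t, t < b ∧ Tendsto (fun l => tower c l t) atTop atTop) →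
          dimH {t : ℝ | a < t ∧ t < b ∧ ∀ᶠ l in atTop, PrimeAlmost r (H l) ⌊tower c l t⌋₊} = 1) ∧
        ∀ a : ℝ, dimH {t : ℝ | a < t ∧ ∀ l, PrimeAlmost r (H l) ⌊tower c l t⌋₊} = 1) ∧
    ∃ r : ℕ, (∀ a b : ℝ, a < b →
        dimH {t : ℝ | a < t ∧ t < b ∧ ∀ᶠ l in atTop, PrimeAlmost r {2, 6, 8} ⌊wright l t⌋₊} = 1) ∧
      ∀ a : ℝ, dimH {t : ℝ | a < t ∧ ∀ l, PrimeAlmost r {2, 6, 8} ⌊wright l t⌋₊} = 1 := by
  refine ⟨general, ?_⟩
  have hlog := Real.log_two_gt_d9
  have he := Real.exp_one_gt_d9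
  obtain ⟨r, h⟩ := general 3 (Real.log 2) (by linarith)
  obtain ⟨h1, h2⟩ := h (Real.log 2) (fun _ => Real.log 2) (fun _ => ⟨le_rfl, le_rfl⟩) (fun _ => {2, 6, 8})
    (fun _ => ⟨by decide, adm_quad⟩)
  refine ⟨r, fun a b hab => ?_, fun a => ?_⟩
  · have h3 := h1 a b hab (Or.inl (by nlinarith))
    simp only [← wright_eq] at h3
    exact h3
  · have h3 := h2 a
    simp only [← wright_eq] at h3
    exact h3

end Pool.Agent.Results.MP_fc51f7_nt.WrightTowers
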